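import Pool.Agent.H532R2.QuadFinal

/-!
# Identity testing for sums of products of powers of quadratic polynomials is in P

An input consists of `1ⁿ`, `1ᵐ` and a list of summands `(c, [(A₁, e₁), …, (Aᵣ, eᵣ)])`, where `c` is
a rational number, `Aⱼ` is a rational matrix describing a polynomial `qⱼ` of degree at most two in
`n` variables, and `eⱼ` is a natural number in binary.  A Turing machine decides in polynomial time
whether `∏ⱼ (eⱼ + 1) ≤ m` for all summands and `∑ c * q₁ ^ e₁ * ⋯ * qᵣ ^ eᵣ` is the zero
polynomial.

The number of summands is unbounded.  The proof computes the Fischer inner products of powers of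
quadratic forms by a recursion on traces, and uses that a polynomial over `ℚ` is zero if and only
if its norm is zero.
-/

namespace Pool.Agent.Results.MP_e2be99_lc.QuadraticPowers

open Pool.Agent.NPC Pool.Agent.H532R2.SPQ

open Classical in
theorem result : Nonempty (Turing.TM2ComputableInPolyTime
    (bits : Input → List Bool) (bits : Bool → List Bool)
    (fun I => decide (Small I ∧ value I = 0))) :=
  Pool.Agent.NPC.H532.quad_result

end Pool.Agent.Results.MP_e2be99_lc.QuadraticPowers
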